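import Pool.Agent.Work.MP_db9399_kr_helper31.PROMA

/-!
# MP_db9399, PROM from PROM1 (helper31)
-/

set_option autoImplicit false
set_option linter.unusedSectionVars false

namespace Pool.Agent.Work.MP_db9399_kr_helper31

open Finset Classical
open Pool.Agent.Work.MP_db9399_all (nb)
open Pool.Agent.Work.MP_db9399_dn (IsMat Tot)
open Pool.Agent.Work.MP_db9399_sl (InS Same Gout Gss Gin Gex Out)
open Pool.Agent.Work.MP_db9399_sw (shs avl Gxh Grh Lgt)
open Pool.Agent.Work.MP_db9399_kr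

universe u

theorem stmt_PROM (hP1 : Stmt_PROM1.{u}) : Stmt_PROM.{u} := by
  intro δ π θ η' e hδ hδ' hπ hπ' hθ hθ' hη' hη''
  obtain ⟨d1, hd1⟩ := hP1 δ π θ η' hδ hδ' (by linarith) hπ' hθ hθ' hη' hη''
  refine ⟨max d1 1, ?_⟩
  intro V _ k η G d Ys U c0 tu cc cR t E K0 C p a Z hd hS hC hO hR
  have hdd : d1 ≤ d := (le_max_left _ _).trans hd
  have hd1' : 1 ≤ d := (le_max_right _ _).trans hd
  have hdp : (1 : ℝ) ≤ d := by exact_mod_cast hd1'
  have hem : ∀ v : V, v ∉ (∅ : Finset V) := fun v => by simp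
  have hIn : ∀ Y ∈ Ys, ∀ v ∈ Y, InS Ys v := fun Y hY v hv => ⟨Y, hY, hv⟩
  -- PROM1 for every short spot
  have hex : ∀ Y ∈ shs d Ys, ∃ s : V → V → Fin k,
      (∀ u ∈ Y ∩ U, ∀ v ∈ Y ∩ U, G.Adj u v → s u v = s v u) ∧
        (∀ u ∈ Y ∩ U, ∀ v ∈ Y, G.Adj u v → s u v ∈ K0 ∧ s u v ∉ E u ∧ s u v ∉ E v ∧
          s u v ≠ cR u ∧ (v ∉ Y ∩ U → v ∉ Z → s u v ∉ C (p v))) ∧
        (∀ u ∈ Y ∩ U, Set.InjOn (s u) ((nb G u ∩ Y : Finset V) : Set V)) ∧
        (∀ v ∈ Y, v ∉ Y ∩ U →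
          Set.InjOn (fun u => s u v) ((nb G v ∩ (Y ∩ U) : Finset V) : Set V)) ∧
        (Y ∩ U).card ≤ ((K0 \ (Y ∩ U).image cR).filter (fun b =>
          Odd ((Y \ (Y ∩ U)).filter (fun v => b ∉ E v ∧
          ∀ u ∈ Y ∩ U, G.Adj u v → s u v ≠ b)).card)).card := by
    intro Y hYs
    have hY : Y ∈ Ys := (mem_filter.1 hYs).1
    have hYd : Y.card < d := (mem_filter.1 hYs).2
    refine hd1 G d Y (Y ∩ U) Z E K0 C p cR hdd hO.K0c hYd (hS.low Y hY) (hS.din Y hY)
      (fun v hv => ?_) (fun v hv => hO.EK v (hIn Y hY v hv) (hem v)) inter_subset_left (hR.Uc Y hY)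
      (fun u hu => ⟨hR.Uk u (mem_inter.1 hu).2, hR.Uf u (mem_inter.1 hu).2⟩)
      (fun u hu u' hu' h => hR.Ui Y hY u hu u' hu' h) hC (hO.ZY Y hY)
      (fun v hv hZ => hO.av v (hIn Y hY v hv) hZ) hO.Cd (hO.ld Y hY) (fun i => ?_)
    · have h1 := hO.Ed v (hIn Y hY v hv)
      rw [nb_Gin G Ys hS.dis Y hY v hv, nb_bot] at h1
      omega
    · have h1 := hO.cell Y hY i true
      have h2 := hO.cell Y hY i false
      have h3 : ((Y.filter (fun v => p v = i)).card : ℝ) ≤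
          ((Y.filter (fun v => p v = i ∧ a v = true)).card : ℝ) +
          ((Y.filter (fun v => p v = i ∧ a v = false)).card : ℝ) := by
        have h4 : Y.filter (fun v => p v = i) ⊆ Y.filter (fun v => p v = i ∧ a v = true) ∪
            Y.filter (fun v => p v = i ∧ a v = false) := by
          intro v hv
          rw [mem_union, mem_filter, mem_filter]
          rw [mem_filter] at hv
          rcases hb : a v with _ | _
          · exact Or.inr ⟨hv.1, hv.2, rfl⟩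
          · exact Or.inl ⟨hv.1, hv.2, rfl⟩
        exact_mod_cast (card_le_card h4).trans (card_union_le _ _)
      rw [abs_le] at h1 h2
      linarith [h1.2, h2.2]
  have : Nonempty (V → V → Fin k) := ⟨t⟩
  choose! S hS1 hS2 hS3 hS4 hS5 using hex
  -- the spot of a vertex
  have hsp : ∀ v : V, ∃ Y : Finset V, InS Ys v → Y ∈ Ys ∧ v ∈ Y := by
    intro v
    by_cases h : InS Ys v
    · obtain ⟨Y, h1, h2⟩ := h
      exact ⟨Y, fun _ => ⟨h1, h2⟩⟩
    · exact ⟨∅, fun h' => absurd h' h⟩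
  choose sp hsp using hsp
  have hspY : ∀ Y ∈ Ys, ∀ v ∈ Y, sp v = Y := by
    intro Y hY v hv
    have h1 := hsp v ⟨Y, hY, hv⟩
    exact sp_eq hS.dis h1.1 hY h1.2 hv
  -- spots with reserved vertices are short
  have hsh : ∀ Y ∈ Ys, ∀ u ∈ U, u ∈ Y → Y ∈ shs d Ys := by
    intro Y hY u hu huY
    obtain ⟨Y', h1, h2⟩ := hR.UY u hu
    rw [sp_eq hS.dis hY (mem_filter.1 h1).1 huY h2]
    exact h1
  set s : V → V → Fin k := fun u v => S (sp u) u v with hsd
  have hsY : ∀ Y ∈ Ys, ∀ u ∈ Y, ∀ v, s u v = S Y u v := by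
    intro Y hY u hu v
    simp only [hsd]
    rw [hspY Y hY u hu]
  have hs : Sps G Ys U Z E K0 C p cR s := by
    refine ⟨fun u v hu hv hsa ha => ?_, fun u v hu hsa ha => ?_,
      fun u v w hu hv ha hw ha' heq => ?_, fun v u u' hv hu hu' hsa ha hsa' ha' heq => ?_⟩
    · obtain ⟨Y, hY, h1, h2⟩ := hsa
      rw [hsY Y hY u h1, hsY Y hY v h2]
      exact hS1 Y (hsh Y hY u hu h1) u (mem_inter.2 ⟨h1, hu⟩) v (mem_inter.2 ⟨h2, hv⟩) ha
    · obtain ⟨Y, hY, h1, h2⟩ := hsa
      rw [hsY Y hY u h1]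
      obtain ⟨g1, g2, g3, g4, g5⟩ := hS2 Y (hsh Y hY u hu h1) u (mem_inter.2 ⟨h1, hu⟩) v h2 ha
      exact ⟨g1, g2, g3, g4, fun h => g5 fun h' => h (mem_inter.1 h').2⟩
    · obtain ⟨Y, hY, h1, h2⟩ := hv
      obtain ⟨Y', hY', h1', h2'⟩ := hw
      rw [← sp_eq hS.dis hY hY' h1 h1'] at h2'
      rw [hsY Y hY u h1, hsY Y hY u h1] at heq
      refine hS3 Y (hsh Y hY u hu h1) u (mem_inter.2 ⟨h1, hu⟩) ?_ ?_ heq
      · rw [mem_coe, mem_inter]
        unfold nb
        simp only [mem_filter, mem_univ, true_and]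
        exact ⟨ha, h2⟩
      · rw [mem_coe, mem_inter]
        unfold nb
        simp only [mem_filter, mem_univ, true_and]
        exact ⟨ha', h2'⟩
    · obtain ⟨Y, hY, h1, h2⟩ := hsa
      obtain ⟨Y', hY', h1', h2'⟩ := hsa'
      rw [← sp_eq hS.dis hY hY' h2 h2'] at h1'
      rw [hsY Y hY u h1, hsY Y hY u' h1'] at heq
      refine hS4 Y (hsh Y hY u hu h1) v h2 (fun h => hv (mem_inter.1 h).2) ?_ ?_ heq
      · rw [mem_coe, mem_inter, mem_inter]
        unfold nb
        simp only [mem_filter, mem_univ, true_and]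
        exact ⟨ha.symm, h1, hu⟩
      · rw [mem_coe, mem_inter, mem_inter]
        unfold nb
        simp only [mem_filter, mem_univ, true_and]
        exact ⟨ha'.symm, h1', hu'⟩
  refine ⟨t2 G Ys U t s, E2 G Ys U E s,
    out2 δ π θ η' e η hη' d c0 tu cc a hS hO hR hs, fun v _ _ => subset_union_left,
    fun Y hY b => new_le hs hS.dis Y hY b, fun Y hYs => ?_⟩
  have hY : Y ∈ Ys := (mem_filter.1 hYs).1
  have hF : FyR Ys U cR (Y \ U) = (Y ∩ U).image cR := by
    unfold FyR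
    congr 1
    ext y
    rw [mem_filter, mem_inter]
    constructor
    · rintro ⟨hy, Y1, hY1, hyY1, heq⟩
      refine ⟨?_, hy⟩
      have hne : (Y \ U).Nonempty := by
        rw [← card_pos]
        have h1 := hS.low Y hY
        have h2 := hR.Uc Y hY
        have h3 : (Y.card : ℝ) = ((Y \ U).card : ℝ) + ((Y ∩ U).card : ℝ) := by
          have := card_sdiff_add_card_inter Y U
          exact_mod_cast this.symm
        have h4 : θ * d ≤ 1 / 100 * (d : ℝ) := mul_le_mul_of_nonneg_right hθ' (by linarith)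
        have h5 : η' * d ≤ 1 / 1000 * (d : ℝ) := mul_le_mul_of_nonneg_right hη'' (by linarith)
        have h6 : (0 : ℝ) < ((Y \ U).card : ℝ) := by linarith
        exact_mod_cast h6
      obtain ⟨z, hz⟩ := hne
      have hz' : z ∈ Y1 \ U := by
        rw [heq]
        exact hz
      rw [sp_eq hS.dis hY hY1 (mem_sdiff.1 hz).1 (mem_sdiff.1 hz').1]
      exact hyY1
    · rintro ⟨h1, h2⟩
      exact ⟨h2, Y, hY, h1, rfl⟩
  rw [hF]
  refine (hS5 Y hYs).trans (le_of_eq ?_)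
  congr 1
  refine filter_congr fun b _ => ?_
  have hsd' : Y \ (Y ∩ U) = Y \ U := by
    ext v
    simp only [mem_sdiff, mem_inter]
    tauto
  rw [hsd']
  have hfil : (Y \ U).filter (fun v => b ∉ E v ∧ ∀ u ∈ Y ∩ U, G.Adj u v → S Y u v ≠ b) =
      (Y \ U).filter (fun v => b ∉ E2 G Ys U E s v) := by
    refine filter_congr fun v hv => ?_
    rw [mem_sdiff] at hv
    unfold E2
    rw [mem_union, mem_image, not_or, rn_eq G Ys hS.dis U Y hY v hv.1]
    refine and_congr_right fun _ => ?_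
    constructor
    · rintro h ⟨u, hu, h2⟩
      rw [mem_inter] at hu
      have h3 := hu.1
      unfold nb at h3
      simp only [mem_filter, mem_univ, true_and] at h3
      rw [hsY Y hY u (mem_inter.1 hu.2).1] at h2
      exact h u hu.2 h3.symm h2
    · intro h u hu ha h2
      refine h ⟨u, ?_, ?_⟩
      · rw [mem_inter]
        unfold nb
        simp only [mem_filter, mem_univ, true_and]
        exact ⟨ha.symm, hu⟩
      · rw [hsY Y hY u (mem_inter.1 hu).1]
        exact h2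
  rw [hfil]

end Pool.Agent.Work.MP_db9399_kr_helper31
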