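import Pool.Agent.Work.MP_db9399_kr.Interface

/-!
# MP_db9399, PROM from PROM1 (helper31)
-/

set_option autoImplicit false
set_option linter.unusedSectionVars false

namespace Pool.Agent.Work.MP_db9399_kr_helper31

open Finset Classical
open Pool.Agent.Work.MP_db9399_all (nb)
open Pool.Agent.Work.MP_db9399_dn (IsMat Tot)
open Pool.Agent.Work.MP_db9399_sl (InS Same Gout Gss Gin Gex Out)
open Pool.Agent.Work.MP_db9399_sw (shs avl Gxh Grh Lgt)
open Pool.Agent.Work.MP_db9399_kr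

universe u

variable {V : Type u} [Fintype V] {k : ℕ}

/-- what is known about the new colours `s` (all spots together) -/
structure Sps (G : SimpleGraph V) (Ys : Finset (Finset V)) (U Z : Finset V)
    (E : V → Finset (Fin k)) (K0 : Finset (Fin k)) (C : Fin 3 → Finset (Fin k)) (p : V → Fin 3)
    (cR : V → Fin k) (s : V → V → Fin k) : Prop where
  A : ∀ u v, u ∈ U → v ∈ U → Same Ys u v → G.Adj u v → s u v = s v u
  B : ∀ u v, u ∈ U → Same Ys u v → G.Adj u v → s u v ∈ K0 ∧ s u v ∉ E u ∧ s u v ∉ E v ∧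
    s u v ≠ cR u ∧ (v ∉ U → v ∉ Z → s u v ∉ C (p v))
  C : ∀ u v w, u ∈ U → Same Ys u v → G.Adj u v → Same Ys u w → G.Adj u w → s u v = s u w → v = w
  D : ∀ v u u', v ∉ U → u ∈ U → u' ∈ U → Same Ys u v → G.Adj u v → Same Ys u' v → G.Adj u' v →
    s u v = s u' v → u = u'

/-- the new edge colouring -/
noncomputable def t2 (G : SimpleGraph V) (Ys : Finset (Finset V)) (U : Finset V)
    (t s : V → V → Fin k) (v w : V) : Fin k :=
  if Same Ys v w ∧ G.Adj v w ∧ v ∈ U then s v w else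
    if Same Ys v w ∧ G.Adj v w ∧ w ∈ U then s w v else t v w

/-- reserved neighbours in the same spot -/
noncomputable def rn (G : SimpleGraph V) (Ys : Finset (Finset V)) (U : Finset V) (v : V) :
    Finset V := univ.filter fun u => u ∈ U ∧ Same Ys u v ∧ G.Adj u v

/-- the new colour sets -/
noncomputable def E2 (G : SimpleGraph V) (Ys : Finset (Finset V)) (U : Finset V)
    (E : V → Finset (Fin k)) (s : V → V → Fin k) (v : V) : Finset (Fin k) :=
  E v ∪ (rn G Ys U v).image fun u => s u v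

theorem same_symm {Ys : Finset (Finset V)} {v w : V} (h : Same Ys v w) : Same Ys w v := by
  obtain ⟨Y, hY, h1, h2⟩ := h
  exact ⟨Y, hY, h2, h1⟩

theorem inS2 (Ys : Finset (Finset V)) (U : Finset V) (v : V) :
    InS (Ys2 Ys U) v ↔ InS Ys v ∧ v ∉ U := by
  unfold InS Ys2
  constructor
  · rintro ⟨Y', h1, h2⟩
    rw [mem_image] at h1
    obtain ⟨Y, hY, rfl⟩ := h1
    rw [mem_sdiff] at h2
    exact ⟨⟨Y, hY, h2.1⟩, h2.2⟩
  · rintro ⟨⟨Y, hY, h1⟩, h2⟩
    exact ⟨Y \ U, mem_image_of_mem _ hY, mem_sdiff.2 ⟨h1, h2⟩⟩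

theorem same2 (Ys : Finset (Finset V)) (U : Finset V) (v w : V) :
    Same (Ys2 Ys U) v w ↔ Same Ys v w ∧ v ∉ U ∧ w ∉ U := by
  unfold Same Ys2
  constructor
  · rintro ⟨Y', h1, h2, h3⟩
    rw [mem_image] at h1
    obtain ⟨Y, hY, rfl⟩ := h1
    rw [mem_sdiff] at h2 h3
    exact ⟨⟨Y, hY, h2.1, h3.1⟩, h2.2, h3.2⟩
  · rintro ⟨⟨Y, hY, h1, h2⟩, h3, h4⟩
    exact ⟨Y \ U, mem_image_of_mem _ hY, mem_sdiff.2 ⟨h1, h3⟩, mem_sdiff.2 ⟨h2, h4⟩⟩

/-- neighbours in the same spot -/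
theorem nb_Gin (G : SimpleGraph V) (Ys : Finset (Finset V))
    (dis : ∀ Y ∈ Ys, ∀ Y' ∈ Ys, Y ≠ Y' → Disjoint Y Y') (Y : Finset V) (hY : Y ∈ Ys) (v : V)
    (hv : v ∈ Y) : nb (Gin G ⊥ Ys) v = nb G v ∩ Y := by
  ext w
  rw [mem_inter]
  unfold nb
  simp only [mem_filter, mem_univ, true_and]
  constructor
  · rintro ⟨h1, ⟨Y', hY', h2, h3⟩, _⟩
    refine ⟨h1, ?_⟩
    by_contra hw
    have hne : Y ≠ Y' := fun h => hw (h ▸ h3)
    exact disjoint_left.1 (dis Y hY Y' hY' hne) hv h2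
  · rintro ⟨h1, h2⟩
    exact ⟨h1, ⟨Y, hY, hv, h2⟩, fun h => h⟩

theorem nb_bot (v : V) : (nb (⊥ : SimpleGraph V) v).card = 0 := by
  rw [card_eq_zero, eq_empty_iff_forall_notMem]
  intro w hw
  unfold nb at hw
  simp only [mem_filter, mem_univ, true_and] at hw
  exact hw

theorem sp_eq {Ys : Finset (Finset V)} (dis : ∀ Y ∈ Ys, ∀ Y' ∈ Ys, Y ≠ Y' → Disjoint Y Y')
    {Y Y' : Finset V} (hY : Y ∈ Ys) (hY' : Y' ∈ Ys) {v : V} (h : v ∈ Y) (h' : v ∈ Y') :
    Y = Y' := by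
  by_contra hne
  exact disjoint_left.1 (dis Y hY Y' hY' hne) h h'

/-- reserved neighbours of a vertex of `Y` -/
theorem rn_eq (G : SimpleGraph V) (Ys : Finset (Finset V))
    (dis : ∀ Y ∈ Ys, ∀ Y' ∈ Ys, Y ≠ Y' → Disjoint Y Y') (U Y : Finset V) (hY : Y ∈ Ys) (v : V)
    (hv : v ∈ Y) : rn G Ys U v = nb G v ∩ (Y ∩ U) := by
  ext w
  rw [mem_inter, mem_inter]
  unfold nb rn
  simp only [mem_filter, mem_univ, true_and]
  constructor
  · rintro ⟨h1, ⟨Y', hY', h2, h3⟩, h4⟩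
    rw [sp_eq dis hY hY' hv h3]
    exact ⟨h4.symm, h2, h1⟩
  · rintro ⟨h1, h2, h3⟩
    exact ⟨h3, ⟨Y, hY, h2, hv⟩, h1.symm⟩

section main

variable {G : SimpleGraph V} {Ys : Finset (Finset V)} {U Z : Finset V}
    {E : V → Finset (Fin k)} {K0 : Finset (Fin k)} {C : Fin 3 → Finset (Fin k)} {p : V → Fin 3}
    {cR : V → Fin k} {s t : V → V → Fin k}

theorem t2_U {v w : V} (h : Same Ys v w) (ha : G.Adj v w) (hv : v ∈ U) :
    t2 G Ys U t s v w = s v w := by
  unfold t2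
  rw [if_pos ⟨h, ha, hv⟩]

theorem t2_U' (hs : Sps G Ys U Z E K0 C p cR s) {v w : V} (h : Same Ys v w) (ha : G.Adj v w)
    (hw : w ∈ U) : t2 G Ys U t s v w = s w v := by
  unfold t2
  by_cases hv : v ∈ U
  · rw [if_pos ⟨h, ha, hv⟩]
    exact hs.A v w hv hw h ha
  · rw [if_neg (fun h' => hv h'.2.2), if_pos ⟨h, ha, hw⟩]

theorem t2_N {v w : V} (h : ¬ Same Ys v w) : t2 G Ys U t s v w = t v w := by
  unfold t2
  rw [if_neg (fun h' => h h'.1), if_neg (fun h' => h h'.1)]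

theorem t2_symm (hs : Sps G Ys U Z E K0 C p cR s) (ht : ∀ v w, t v w = t w v) (v w : V) :
    t2 G Ys U t s v w = t2 G Ys U t s w v := by
  by_cases h : Same Ys v w ∧ G.Adj v w
  · by_cases hv : v ∈ U
    · rw [t2_U h.1 h.2 hv, t2_U' hs (same_symm h.1) h.2.symm hv]
    · by_cases hw : w ∈ U
      · rw [t2_U' hs h.1 h.2 hw, t2_U (same_symm h.1) h.2.symm hw]
      · unfold t2
        rw [if_neg (fun h' => hv h'.2.2), if_neg (fun h' => hw h'.2.2),
          if_neg (fun h' => hw h'.2.2), if_neg (fun h' => hv h'.2.2)]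
        exact ht v w
  · unfold t2
    rw [if_neg (fun h' => h ⟨h'.1, h'.2.1⟩), if_neg (fun h' => h ⟨h'.1, h'.2.1⟩),
      if_neg (fun h' => h ⟨same_symm h'.1, h'.2.1.symm⟩),
      if_neg (fun h' => h ⟨same_symm h'.1, h'.2.1.symm⟩)]
    exact ht v w

/-- the colour `s u v` is new at `v` -/
theorem card_E2 (hs : Sps G Ys U Z E K0 C p cR s) (v : V) (hv : v ∉ U) :
    (E2 G Ys U E s v).card = (E v).card + (rn G Ys U v).card := by
  unfold E2
  rw [card_union_of_disjoint, card_image_of_injOn]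
  · intro u hu u' hu' h
    rw [mem_coe] at hu hu'
    unfold rn at hu hu'
    simp only [mem_filter, mem_univ, true_and] at hu hu'
    exact hs.D v u u' hv hu.1 hu'.1 hu.2.1 hu.2.2 hu'.2.1 hu'.2.2 h
  · rw [disjoint_left]
    intro b hb hb'
    rw [mem_image] at hb'
    obtain ⟨u, hu, rfl⟩ := hb'
    unfold rn at hu
    simp only [mem_filter, mem_univ, true_and] at hu
    exact (hs.B u v hu.1 hu.2.1 hu.2.2).2.2.1 hb

/-- a new colour appears at few vertices of `Y` -/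
theorem new_le (hs : Sps G Ys U Z E K0 C p cR s)
    (dis : ∀ Y ∈ Ys, ∀ Y' ∈ Ys, Y ≠ Y' → Disjoint Y Y') (Y : Finset V) (hY : Y ∈ Ys)
    (b : Fin k) :
    ((Y \ U).filter fun v => b ∈ E2 G Ys U E s v ∧ b ∉ E v).card ≤ (Y ∩ U).card := by
  have h1 : ∀ v ∈ (Y \ U).filter fun v => b ∈ E2 G Ys U E s v ∧ b ∉ E v,
      ∃ u, u ∈ Y ∩ U ∧ Same Ys u v ∧ G.Adj u v ∧ s u v = b := by
    intro v hv
    rw [mem_filter, mem_sdiff] at hv
    obtain ⟨⟨h2, h3⟩, h4, h5⟩ := hv
    unfold E2 at h4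
    rw [mem_union, mem_image] at h4
    rcases h4 with h4 | ⟨u, hu, h6⟩
    · exact absurd h4 h5
    · rw [rn_eq G Ys dis U Y hY v h2, mem_inter, mem_inter] at hu
      unfold nb at hu
      simp only [mem_filter, mem_univ, true_and] at hu
      exact ⟨u, mem_inter.2 hu.2, ⟨Y, hY, hu.2.1, h2⟩, hu.1.symm, h6⟩
  choose! f hf using h1
  refine card_le_card_of_injOn f (fun v hv => (hf v hv).1) (fun v hv w hw h => ?_)
  have e1 := hf v hv
  have e2 := hf w hw
  rw [← h] at e2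
  exact hs.C (f v) v w (mem_inter.1 e1.1).2 e1.2.1 e1.2.2.1 e2.2.1 e2.2.2.1
    (e1.2.2.2.trans e2.2.2.2.symm)

/-- `Out` for the new spots -/
theorem out2 (δ π θ η' e η : ℝ) (hη' : 0 < η') (d : ℕ) (c0 tu cc : V → Fin k) (a : V → Bool)
    (hS : SpR θ η G d Ys)
    (hO : Out δ π G (Gex G Ys) ⊥ ⊥ d Ys ∅ c0 tu cc t E K0 C p a Z)
    (hR : RsQ η' e G d Ys U cR cc E K0) (hs : Sps G Ys U Z E K0 C p cR s) :
    Out (δ + 2 * η') π G (Gex G (Ys2 Ys U)) ⊥ ⊥ d (Ys2 Ys U) ∅ c0 tu (cc2 U cR cc)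
      (t2 G Ys U t s) (E2 G Ys U E s) K0 C p a Z := by
  have hem : ∀ v : V, v ∉ (∅ : Finset V) := fun v => by simp
  have hns : ∀ v, ¬ InS (Ys2 Ys U) v → v ∈ U ∨ (v ∉ U ∧ ¬ InS Ys v) := by
    intro v hv
    by_cases hU : v ∈ U
    · exact Or.inl hU
    · exact Or.inr ⟨hU, fun h => hv ((inS2 Ys U v).2 ⟨h, hU⟩)⟩
  have hUS : ∀ v ∈ U, InS Ys v := by
    intro v hv
    obtain ⟨Y, h1, h2⟩ := hR.UY v hv
    unfold shs at h1
    exact ⟨Y, (mem_filter.1 h1).1, h2⟩
  have hns' : ∀ v, (InS (Ys2 Ys U) v → v ∈ (∅ : Finset V)) → ¬ InS (Ys2 Ys U) v :=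
    fun v h h' => hem v (h h')
  refine ⟨hO.K0c, fun v hv => absurd hv (hem v), fun v _ => ?_, fun v w ha hv hw => ?_,
    fun v w => t2_symm hs hO.ts v w, fun v w h => absurd h (fun h => h), fun v w h _ => ?_,
    fun v w h hv => ?_, fun v => ?_, fun v w hv h => ?_, fun v hv _ => ?_,
    fun v hv => absurd hv (hem v), fun v hv => ?_, hO.CK, hO.Cc, hO.Cd,
    fun v hv => absurd hv (hem v), fun Y' hY' => ?_, fun v hv hZ => ?_, fun Y' hY' i l => ?_,
    fun Y' hY' b => ?_⟩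
  · -- cK
    unfold cc2
    split_ifs with h
    · exact hR.Uk v h
    · exact hO.cK v (hem v)
  · -- cc
    unfold cc2
    rcases hns v (hns' v hv) with h1 | h1 <;> rcases hns w (hns' w hw) with h2 | h2
    · rw [if_pos h1, if_pos h2]
      exact hR.Ua v h1 w h2 ha
    · rw [if_pos h1, if_neg h2.1]
      exact (hR.Uo v h1 w h2.2 ha).symm
    · rw [if_neg h1.1, if_pos h2]
      exact hR.Uo w h2 v h1.2 ha.symm
    · rw [if_neg h1.1, if_neg h2.1]
      exact hO.cc v w ha (fun h => absurd h h1.2) (fun h => absurd h h2.2)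
  · -- tK
    by_cases hs2 : Same Ys v w
    · by_cases hv : v ∈ U
      · rw [t2_U hs2 h.1 hv]
        exact (hs.B v w hv hs2 h.1).1
      · by_cases hw : w ∈ U
        · rw [t2_U' hs hs2 h.1 hw]
          exact (hs.B w v hw (same_symm hs2) h.1.symm).1
        · exact absurd ((same2 Ys U v w).2 ⟨hs2, hv, hw⟩) h.2
    · rw [t2_N hs2]
      exact hO.tK v w ⟨h.1, hs2⟩ (fun h => h)
  · -- tc
    rcases hns v (hns' v hv) with h1 | h1
    · unfold cc2
      rw [if_pos h1]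
      by_cases hs2 : Same Ys v w
      · rw [t2_U hs2 h.1 h1]
        exact (hs.B v w h1 hs2 h.1).2.2.2.1
      · rw [t2_N hs2]
        intro heq
        have h3 := hO.Et v w (hUS v h1) (Or.inl ⟨h.1, hs2⟩)
        rw [heq] at h3
        exact hR.Uf v h1 h3
    · unfold cc2
      rw [if_neg h1.1]
      have hs2 : ¬ Same Ys v w := fun h' => h1.2 (by
        obtain ⟨Y, hY, h2, _⟩ := h'
        exact ⟨Y, hY, h2⟩)
      rw [t2_N hs2]
      exact hO.tc v w ⟨h.1, hs2⟩ (fun h' => absurd h' h1.2)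
  · -- ti
    have key : ∀ w, (Gex G (Ys2 Ys U)).Adj v w → Same Ys v w → t2 G Ys U t s v w ∉ E v := by
      intro w hw hs2
      by_cases hv : v ∈ U
      · rw [t2_U hs2 hw.1 hv]
        exact (hs.B v w hv hs2 hw.1).2.1
      · by_cases hwU : w ∈ U
        · rw [t2_U' hs hs2 hw.1 hwU]
          exact (hs.B w v hwU (same_symm hs2) hw.1.symm).2.2.1
        · exact absurd ((same2 Ys U v w).2 ⟨hs2, hv, hwU⟩) hw.2
    have key' : ∀ w, (Gex G (Ys2 Ys U)).Adj v w → ¬ Same Ys v w → InS Ys v →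
        t2 G Ys U t s v w ∈ E v := by
      intro w hw hs2 hv
      rw [t2_N hs2]
      exact hO.Et v w hv (Or.inl ⟨hw.1, hs2⟩)
    intro w hw w' hw' heq
    have hw1 : (Gex G (Ys2 Ys U)).Adj v w := hw.elim id (fun h => absurd h (fun h => h))
    have hw1' : (Gex G (Ys2 Ys U)).Adj v w' := hw'.elim id (fun h => absurd h (fun h => h))
    have hin : ∀ z, Same Ys v z → InS Ys v := fun z h' => by
      obtain ⟨Y, hY, h2, _⟩ := h'
      exact ⟨Y, hY, h2⟩
    by_cases hs2 : Same Ys v w <;> by_cases hs2' : Same Ys v w'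
    · by_cases hv : v ∈ U
      · rw [t2_U hs2 hw1.1 hv, t2_U hs2' hw1'.1 hv] at heq
        exact hs.C v w w' hv hs2 hw1.1 hs2' hw1'.1 heq
      · have hwU : w ∈ U := by
          by_contra h
          exact hw1.2 ((same2 Ys U v w).2 ⟨hs2, hv, h⟩)
        have hwU' : w' ∈ U := by
          by_contra h
          exact hw1'.2 ((same2 Ys U v w').2 ⟨hs2', hv, h⟩)
        rw [t2_U' hs hs2 hw1.1 hwU, t2_U' hs hs2' hw1'.1 hwU'] at heq
        exact hs.D v w w' hv hwU hwU' (same_symm hs2) hw1.1.symm (same_symm hs2') hw1'.1.symm heq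
    · have h3 := key w hw1 hs2
      rw [heq] at h3
      exact absurd (key' w' hw1' hs2' (hin w hs2)) h3
    · have h3 := key w' hw1' hs2'
      rw [← heq] at h3
      exact absurd (key' w hw1 hs2 (hin w' hs2')) h3
    · rw [t2_N hs2, t2_N hs2'] at heq
      exact hO.ti v (Or.inl ⟨hw1.1, hs2⟩) (Or.inl ⟨hw1'.1, hs2'⟩) heq
  · -- Et
    have hw1 : (Gex G (Ys2 Ys U)).Adj v w := h.elim id (fun h => absurd h (fun h => h))
    obtain ⟨hv1, hv2⟩ := (inS2 Ys U v).1 hv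
    unfold E2
    rw [mem_union]
    by_cases hs2 : Same Ys v w
    · right
      have hwU : w ∈ U := by
        by_contra h
        exact hw1.2 ((same2 Ys U v w).2 ⟨hs2, hv2, h⟩)
      rw [t2_U' hs hs2 hw1.1 hwU, mem_image]
      refine ⟨w, ?_, rfl⟩
      unfold rn
      simp only [mem_filter, mem_univ, true_and]
      exact ⟨hwU, same_symm hs2, hw1.1.symm⟩
    · left
      rw [t2_N hs2]
      exact hO.Et v w hv1 (Or.inl ⟨hw1.1, hs2⟩)
  · -- EK
    obtain ⟨hv1, hv2⟩ := (inS2 Ys U v).1 hv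
    unfold E2
    intro b hb
    rw [mem_union, mem_image] at hb
    rcases hb with hb | ⟨u, hu, rfl⟩
    · exact hO.EK v hv1 (hem v) hb
    · unfold rn at hu
      simp only [mem_filter, mem_univ, true_and] at hu
      exact (hs.B u v hu.1 hu.2.1 hu.2.2).1
  · -- Ed
    obtain ⟨hv1, hv2⟩ := (inS2 Ys U v).1 hv
    obtain ⟨Y, hY, hvY⟩ := hv1
    have h1 := hO.Ed v ⟨Y, hY, hvY⟩
    rw [nb_Gin G Ys hS.dis Y hY v hvY] at h1
    have h2 : nb (Gin G ⊥ (Ys2 Ys U)) v = nb G v ∩ (Y \ U) := by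
      ext w
      rw [mem_inter, mem_sdiff]
      unfold nb
      simp only [mem_filter, mem_univ, true_and]
      constructor
      · rintro ⟨g1, g2, _⟩
        obtain ⟨⟨Y', hY', g3, g4⟩, g5, g6⟩ := (same2 Ys U v w).1 g2
        rw [sp_eq hS.dis hY hY' hvY g3]
        exact ⟨g1, g4, g6⟩
      · rintro ⟨g1, g2, g3⟩
        exact ⟨g1, (same2 Ys U v w).2 ⟨⟨Y, hY, hvY, g2⟩, hv2, g3⟩, fun h => h⟩
    rw [h2, card_E2 hs v hv2, rn_eq G Ys hS.dis U Y hY v hvY]
    have h3 : (nb G v ∩ Y).card = (nb G v ∩ (Y ∩ U)).card + (nb G v ∩ (Y \ U)).card := by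
      rw [← card_union_of_disjoint]
      · congr 1
        ext w
        simp only [mem_union, mem_inter, mem_sdiff]
        tauto
      · rw [disjoint_left]
        intro w g1 g2
        simp only [mem_inter, mem_sdiff] at g1 g2
        exact g2.2.2 g1.2.2
    omega
  · -- ZY
    unfold Ys2 at hY'
    rw [mem_image] at hY'
    obtain ⟨Y, hY, rfl⟩ := hY'
    have h1 := hO.ZY Y hY
    have h2 : (((Y \ U) ∩ Z).card : ℝ) ≤ ((Y ∩ Z).card : ℝ) := by
      exact_mod_cast card_le_card (inter_subset_inter_right sdiff_subset)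
    have h3 : 0 ≤ η' * (d : ℝ) := by positivity
    linarith
  · -- av
    obtain ⟨hv1, hv2⟩ := (inS2 Ys U v).1 hv
    rw [disjoint_left]
    intro b hb
    unfold E2 at hb
    rw [mem_union, mem_image] at hb
    rcases hb with hb | ⟨u, hu, rfl⟩
    · exact disjoint_left.1 (hO.av v hv1 hZ) hb
    · unfold rn at hu
      simp only [mem_filter, mem_univ, true_and] at hu
      exact (hs.B u v hu.1 hu.2.1 hu.2.2).2.2.2.2 hv2 hZ
  · -- cell
    unfold Ys2 at hY'
    rw [mem_image] at hY'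
    obtain ⟨Y, hY, rfl⟩ := hY'
    have h1 := hO.cell Y hY i l
    have h2 := hR.Uc Y hY
    have h3 : (Y.card : ℝ) = ((Y \ U).card : ℝ) + ((Y ∩ U).card : ℝ) := by
      have := card_sdiff_add_card_inter Y U
      exact_mod_cast this.symm
    have h4 : ((Y.filter (fun v => p v = i ∧ a v = l)).card : ℝ) ≤
        (((Y \ U).filter (fun v => p v = i ∧ a v = l)).card : ℝ) + ((Y ∩ U).card : ℝ) := by
      have h5 : Y.filter (fun v => p v = i ∧ a v = l) ⊆
          (Y \ U).filter (fun v => p v = i ∧ a v = l) ∪ (Y ∩ U) := by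
        intro v hv
        rw [mem_union, mem_filter, mem_sdiff, mem_inter]
        rw [mem_filter] at hv
        tauto
      exact_mod_cast (card_le_card h5).trans (card_union_le _ _)
    have h6 : (((Y \ U).filter (fun v => p v = i ∧ a v = l)).card : ℝ) ≤
        ((Y.filter (fun v => p v = i ∧ a v = l)).card : ℝ) := by
      exact_mod_cast card_le_card (filter_subset_filter _ sdiff_subset)
    have h7 : (0 : ℝ) ≤ ((Y ∩ U).card : ℝ) := Nat.cast_nonneg _
    have h8 : 0 ≤ η' * (d : ℝ) := by positivity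
    rw [abs_le] at h1 ⊢
    constructor <;> linarith [h1.1, h1.2]
  · -- ld
    unfold Ys2 at hY'
    rw [mem_image] at hY'
    obtain ⟨Y, hY, rfl⟩ := hY'
    have h1 := hO.ld Y hY b
    have h2 := hR.Uc Y hY
    have h3 := new_le hs hS.dis Y hY b
    have h4 : (Y \ U).filter (fun v => v ∉ Z ∧ b ∈ E2 G Ys U E s v) ⊆
        Y.filter (fun v => v ∉ Z ∧ b ∈ E v) ∪
          (Y \ U).filter (fun v => b ∈ E2 G Ys U E s v ∧ b ∉ E v) := by
      intro v hv
      rw [mem_union, mem_filter, mem_filter, mem_sdiff]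
      rw [mem_filter, mem_sdiff] at hv
      by_cases hb : b ∈ E v
      · exact Or.inl ⟨hv.1.1, hv.2.1, hb⟩
      · exact Or.inr ⟨hv.1, hv.2.2, hb⟩
    have h5 : (((Y \ U).filter (fun v => v ∉ Z ∧ b ∈ E2 G Ys U E s v)).card : ℝ) ≤
        ((Y.filter (fun v => v ∉ Z ∧ b ∈ E v)).card : ℝ) + ((Y ∩ U).card : ℝ) := by
      exact_mod_cast ((card_le_card h4).trans (card_union_le _ _)).trans
        (Nat.add_le_add_left h3 _)
    have h8 : 0 ≤ η' * (d : ℝ) := by positivity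
    linarith

end main

end Pool.Agent.Work.MP_db9399_kr_helper31
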