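import Mathlib

/-!
# MP_db9399, STAR (helper31)
-/

set_option autoImplicit false
set_option linter.unusedSectionVars false

namespace Pool.Agent.Work.MP_db9399_kr_helper31

open Finset Classical

universe u

/-- perfect matching by Hall, minimum degrees at least half -/
theorem star {V : Type u} {D : Type} [Nonempty D] (A : Finset V) (B : Finset D)
    (L : V → Finset D) (hAB : A.card = B.card) (h1 : ∀ y ∈ A, B.card ≤ 2 * (B ∩ L y).card)
    (h2 : ∀ b ∈ B, A.card ≤ 2 * (A.filter (fun y => b ∈ L y)).card) :
    ∃ f : V → D, (∀ y ∈ A, f y ∈ B ∧ f y ∈ L y) ∧ Set.InjOn f A := by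
  have hall : ∀ s : Finset {y // y ∈ A}, s.card ≤ (s.biUnion fun y => B ∩ L y.1).card := by
    intro s
    rcases s.eq_empty_or_nonempty with rfl | ⟨y0, hy0⟩
    · simp
    · by_cases hs : 2 * s.card ≤ B.card
      · have h3 := h1 y0.1 y0.2
        have h4 : (B ∩ L y0.1).card ≤ (s.biUnion fun y => B ∩ L y.1).card :=
          card_le_card fun b hb => mem_biUnion.2 ⟨y0, hy0, hb⟩
        omega
      · have h3 : B ⊆ s.biUnion fun y => B ∩ L y.1 := by
          intro b hb
          by_contra hn
          have h4 : Disjoint (s.map (Function.Embedding.subtype _)) (A.filter fun y => b ∈ L y) := by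
            rw [disjoint_left]
            intro y hy hy'
            rw [mem_map] at hy
            obtain ⟨z, hz, rfl⟩ := hy
            rw [mem_filter] at hy'
            exact hn (mem_biUnion.2 ⟨z, hz, mem_inter.2 ⟨hb, hy'.2⟩⟩)
          have h5 : (s.map (Function.Embedding.subtype _)) ∪ (A.filter fun y => b ∈ L y) ⊆ A := by
            intro y hy
            rw [mem_union, mem_map, mem_filter] at hy
            rcases hy with ⟨z, _, rfl⟩ | hy
            · exact z.2
            · exact hy.1
          have h6 := card_le_card h5
          rw [card_union_of_disjoint h4, card_map] at h6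
          have h7 := h2 b hb
          omega
        have h4 : s.card ≤ A.card := by
          have := card_le_univ s
          rwa [Fintype.card_coe] at this
        exact (h4.trans hAB.le).trans (card_le_card h3)
  obtain ⟨f, hf1, hf2⟩ := (all_card_le_biUnion_card_iff_exists_injective
    (fun y : {y // y ∈ A} => B ∩ L y.1)).1 hall
  refine ⟨fun y => if h : y ∈ A then f ⟨y, h⟩ else Classical.arbitrary D, fun y hy => ?_,
    fun y hy z hz hyz => ?_⟩
  · simp only [dif_pos hy]
    exact mem_inter.1 (hf2 ⟨y, hy⟩)
  · rw [mem_coe] at hy hz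
    simp only [dif_pos hy, dif_pos hz] at hyz
    exact congrArg Subtype.val (hf1 hyz)

end Pool.Agent.Work.MP_db9399_kr_helper31
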